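import Mathlib
import Pool.Agent.Lib.MP_afeaf0_al.Final

/-!
# A non-excellent Noetherian domain of prime characteristic whose absolute integral closure is solid
-/

namespace Pool.Agent.Results.MP_afeaf0_al.SolidPlus

universe u

/-- A commutative ring `A` is *catenary* if for all primes `P ⊆ Q` there is an integer `n` such
that every chain of primes from `P` to `Q` has length at most `n` and every saturated chain of
primes from `P` to `Q` has length exactly `n`. -/
def IsCatenary (A : Type u) [CommRing A] : Prop :=
  ∀ P Q : PrimeSpectrum A, P ≤ Q → ∃ n : ℕ,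
    (∀ c : LTSeries (PrimeSpectrum A), c.head = P → c.last = Q → c.length ≤ n) ∧
    (∀ c : RelSeries {x : PrimeSpectrum A × PrimeSpectrum A | x.1 ⋖ x.2},
      c.head = P → c.last = Q → c.length = n)

/-- A commutative ring `A` is *universally catenary* if every `A`-algebra of finite type is
catenary.  (An excellent ring is, by definition, Noetherian and universally catenary, and in
addition a G-ring and J-2.) -/
def IsUniversallyCatenary (A : Type u) [CommRing A] : Prop :=
  ∀ (B : Type u) [CommRing B] [Algebra A B], Algebra.FiniteType A B → IsCatenary B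

/-- An `R`-algebra `S` is *solid* if there is a nonzero `R`-linear map `S → R`. -/
def IsSolid (R S : Type*) [CommRing R] [CommRing S] [Algebra R S] : Prop :=
  ∃ φ : S →ₗ[R] R, φ ≠ 0

/-- The absolute integral closure `R⁺` of the domain `R`, i.e. the integral closure of `R` in an
algebraic closure of its fraction field, is a solid `R`-algebra. -/
def PlusIsSolid (R : Type u) [CommRing R] [IsDomain R] : Prop :=
  IsSolid R (integralClosure R (AlgebraicClosure (FractionRing R)))

/-- Two saturated chains `P₀ ⋖ Q₀ ⋖ M` versus a chain `P₀ < Qa < Qb < M`. -/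
theorem not_isCatenary_of_chains {A : Type u} [CommRing A] (P₀ Q₀ M Qa Qb : PrimeSpectrum A)
    (h1 : P₀ ⋖ Q₀) (h2 : Q₀ ⋖ M) (h3 : P₀ < Qa) (h4 : Qa < Qb) (h5 : Qb < M) :
    ¬ IsCatenary A := by
  intro H
  obtain ⟨n, hn1, hn2⟩ := H P₀ M (h3.le.trans (h4.le.trans h5.le))
  let c : RelSeries {x : PrimeSpectrum A × PrimeSpectrum A | x.1 ⋖ x.2} :=
    { length := 2
      toFun := ![P₀, Q₀, M]
      step := by
        intro i
        fin_cases i
        · exact h1
        · exact h2 }
  let d : LTSeries (PrimeSpectrum A) :=
    { length := 3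
      toFun := ![P₀, Qa, Qb, M]
      step := by
        intro i
        fin_cases i
        · exact h3
        · exact h4
        · exact h5 }
  have e1 : 2 = n := hn2 c rfl rfl
  have e2 : 3 ≤ n := hn1 d rfl rfl
  omega

/-- **A positive answer to Q1.**  For every prime `p` there is a Noetherian domain `R` of
characteristic `p` which is not universally catenary, hence not excellent, but whose absolute
integral closure `R⁺` (the integral closure of `R` in an algebraic closure of its fraction field)
is a solid `R`-algebra. -/
theorem result (p : ℕ) (hp : p.Prime) :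
    ∃ (R : Type) (_ : CommRing R) (_ : IsDomain R),
      IsNoetherianRing R ∧ CharP R p ∧ ¬ IsUniversallyCatenary R ∧
      PlusIsSolid R := by
  have : Fact p.Prime := ⟨hp⟩
  refine ⟨Pool.Agent.Lib.MP_afeaf0_al.glue (Pool.Agent.Lib.MP_afeaf0_al.h₁ p)
    (Pool.Agent.Lib.MP_afeaf0_al.h₂ p), inferInstance, inferInstance,
    Pool.Agent.Lib.MP_afeaf0_al.noetherian_glue p, Pool.Agent.Lib.MP_afeaf0_al.charP_glue p,
    ?_, Pool.Agent.Lib.MP_afeaf0_al.solid_glue p⟩
  intro H
  obtain ⟨P₀, Q₀, M, Qa, Qb, h1, h2, h3, h4, h5⟩ := Pool.Agent.Lib.MP_afeaf0_al.chains_glue p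
  exact not_isCatenary_of_chains P₀ Q₀ M Qa Qb h1 h2 h3 h4 h5 (H _ inferInstance)

end Pool.Agent.Results.MP_afeaf0_al.SolidPlus
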